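import Pool.Agent.HP25.FA.A
import Pool.Agent.HP25.RD.C

set_option autoImplicit false

/-! Integers with random digits: uniform distribution in residue classes with moduli up to `exp (c √k)`. -/

namespace Pool.Agent.HP25.FA

open Finset Pool.Agent.TH869.EVF Pool.Agent.TH869.SQ
open Pool.Agent.TH872.Sq (Dig P P_nonneg P_sum g0 g0_bounds)
open Pool.Agent.HP25.RD (EquiP equiP_fac)

lemma sum_class (S : Finset ℕ) (p F : ℕ → ℝ) (M : ℕ) (hM : 1 ≤ M) (hF : Per F M) :
    ∑ n ∈ S, p n * F n = ∑ a ∈ range M, F a * ∑ n ∈ S, p n * (if (M : ℤ) ∣ (n : ℤ) - a then 1 else 0) := by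
  have h1 : ∀ n ∈ S, p n * F n = ∑ a ∈ range M, F a * (p n * (if (M : ℤ) ∣ (n : ℤ) - a then 1 else 0)) := by
    intro n _
    have h2 : ∀ a ∈ range M, F a * (p n * (if (M : ℤ) ∣ (n : ℤ) - a then (1 : ℝ) else 0)) = if a = n % M then p n * F a else 0 := by
      intro a ha
      rw [mem_range] at ha
      by_cases h : a = n % M
      · rw [if_pos h, if_pos, mul_one, mul_comm]
        rw [h]
        push_cast
        exact Int.dvd_self_sub_emod
      · rw [if_neg h, if_neg, mul_zero, mul_zero]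
        intro hd
        apply h
        have h3 : ((n : ℤ) - a) % M = 0 := Int.emod_eq_zero_of_dvd hd
        have h4 : (n : ℤ) % M = (a : ℤ) % M := Int.emod_eq_emod_iff_emod_sub_eq_zero.2 h3
        rw [Int.emod_eq_of_lt (by positivity : (0 : ℤ) ≤ a) (by exact_mod_cast ha)] at h4
        exact_mod_cast h4.symm
    rw [sum_congr rfl h2, sum_ite_eq', if_pos (mem_range.2 (Nat.mod_lt _ (by omega))), per_mod hF]
  rw [sum_congr rfl h1, sum_comm]
  exact sum_congr rfl fun a _ => by rw [mul_sum]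

/-- **Uniform distribution of the integers with random digits** -/
theorem fw_dig (b : ℕ) (hb : 2 ≤ b) (η : ℝ) (hη : 0 < η) (hη1 : η ≤ 1) : ∃ σ C : ℝ, 0 < σ ∧ σ ≤ 1 ∧ 1 ≤ C ∧
    ∀ w : ℕ → ℕ → ℝ, Dig b η w → ∀ K m : ℕ, m * (m + 1) + 1 ≤ K →
    FW (range (b ^ K)) (P b w 0 K) b.factorial (b ^ m) 1 σ C := by
  obtain ⟨hg0, hg1⟩ := g0_bounds b hb η hη hη1
  obtain ⟨γ, hγ⟩ : ∃ γ, γ = max (g0 b η) (1 / 2) := ⟨_, rfl⟩
  have hγg : g0 b η ≤ γ := by rw [hγ]; exact le_max_left _ _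
  have hγ2 : 1 / 2 ≤ γ := by rw [hγ]; exact le_max_right _ _
  have hγ1 : γ < 1 := by rw [hγ]; exact max_lt hg1 (by norm_num)
  have hbr : (2 : ℝ) ≤ b := by exact_mod_cast hb
  have hlb : 0 < Real.log b := Real.log_pos (by linarith)
  have hlγ : Real.log γ < 0 := Real.log_neg (by linarith) hγ1
  obtain ⟨σ, hσ⟩ : ∃ σ, σ = min 1 (-Real.log γ / Real.log b) := ⟨_, rfl⟩
  have hσ0 : 0 < σ := by rw [hσ]; exact lt_min one_pos (div_pos (by linarith) hlb)
  have hσ1 : σ ≤ 1 := by rw [hσ]; exact min_le_left _ _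
  have hσ2 : σ * Real.log b ≤ -Real.log γ := by
    have : σ ≤ -Real.log γ / Real.log b := by rw [hσ]; exact min_le_right _ _
    rwa [le_div_iff₀ hlb] at this
  have hfac : (1 : ℝ) ≤ b.factorial := by exact_mod_cast b.factorial_pos
  refine ⟨σ, b.factorial, hσ0, hσ1, hfac, fun w hw K m hm => ⟨hfac, fun n _ => P_nonneg hw _ _ _, (P_sum (by omega) hw 0 K).le, ?_⟩⟩
  intro M hM hMf hMN F hper hF hsum
  rw [Real.rpow_one] at hMN
  have hMN' : M ≤ b ^ m := by exact_mod_cast hMN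
  have hM0 : (0 : ℝ) < M := by exact_mod_cast hM
  have key : ∀ a : ℕ, |∑ n ∈ range (b ^ K), P b w 0 K n * (if (M : ℤ) ∣ (n : ℤ) - a then 1 else 0) - 1 / M| ≤ b.factorial * γ ^ m := by
    intro a
    have h := equiP_fac hb hη hw 0 K m m M hMf hMN' hm (fun _ => 1) (fun _ => by rw [abs_one]) (fun _ => rfl) a
    simp only [one_mul, mul_one] at h
    rw [P_sum (by omega) hw 0 K, mul_one] at h
    refine h.trans ?_
    exact mul_le_mul_of_nonneg_left (pow_le_pow_left₀ hg0 hγg m) (by positivity)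
  rw [sum_class _ _ F M hM hper]
  have e1 : ∑ a ∈ range M, F a * ∑ n ∈ range (b ^ K), P b w 0 K n * (if (M : ℤ) ∣ (n : ℤ) - a then 1 else 0) =
      ∑ a ∈ range M, F a * (∑ n ∈ range (b ^ K), P b w 0 K n * (if (M : ℤ) ∣ (n : ℤ) - a then 1 else 0) - 1 / M) := by
    have : ∑ a ∈ range M, F a * (1 / (M : ℝ)) = 0 := by rw [← sum_mul, hsum, zero_mul]
    simp only [mul_sub]
    rw [sum_sub_distrib, this, sub_zero]
  rw [e1]
  have h2 : γ ^ m ≤ ((b ^ m : ℕ) : ℝ) ^ (-σ) := by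
    have hb0 : (0 : ℝ) < b := by linarith
    rw [Real.rpow_def_of_pos (by positivity)]
    have e2 : γ ^ m = Real.exp (m * Real.log γ) := by
      rw [← Real.log_pow, Real.exp_log (by positivity)]
    rw [e2]
    apply Real.exp_le_exp.2
    push_cast
    rw [Real.log_pow]
    have hm0 : (0 : ℝ) ≤ m := Nat.cast_nonneg m
    nlinarith
  calc |∑ a ∈ range M, F a * (∑ n ∈ range (b ^ K), P b w 0 K n * (if (M : ℤ) ∣ (n : ℤ) - a then 1 else 0) - 1 / M)|
      ≤ ∑ a ∈ range M, |F a * (∑ n ∈ range (b ^ K), P b w 0 K n * (if (M : ℤ) ∣ (n : ℤ) - a then 1 else 0) - 1 / M)| := abs_sum_le_sum_abs _ _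
    _ ≤ ∑ a ∈ range M, b.factorial * γ ^ m := by
        refine sum_le_sum fun a _ => ?_
        rw [abs_mul]
        calc _ ≤ 1 * (b.factorial * γ ^ m) := mul_le_mul (hF a) (key a) (abs_nonneg _) (by norm_num)
          _ = _ := one_mul _
    _ = M * (b.factorial * γ ^ m) := by rw [sum_const, card_range, nsmul_eq_mul]
    _ ≤ _ := by
        apply mul_le_mul_of_nonneg_left _ hM0.le
        exact mul_le_mul_of_nonneg_left h2 (by positivity)

/-- **boxes at consecutive primes, random digits** -/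
theorem dig_consecutive (b : ℕ) (hb : 2 ≤ b) (η : ℝ) (hη : 0 < η) (hη1 : η ≤ 1) (s : ℕ) (hs : 1 ≤ s) (δ : ℝ) (hδ : 0 < δ) :
    ∃ c C : ℝ, 0 < c ∧ 1 ≤ C ∧ ∀ K : ℕ, 1 ≤ K → ∀ w : ℕ → ℕ → ℝ, Dig b η w →
      ∀ x : ℕ → ℕ → ℝ, (∀ p n, x p (n + p) = x p n) →
      ∃ E : Finset ℕ, E ⊆ range (b ^ K) ∧ ∑ n ∈ E, P b w 0 K n ≤ C * Real.exp (-(c * √K)) ∧
        ∀ n < b ^ K, n ∉ E → ∀ L : ℕ, (L : ℝ) ≤ Real.exp (c * √K) →
          ∀ I : Fin s → Set ℝ, (∀ i, (I i).OrdConnected) →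
          |∑ k ∈ range L, (ind I (fun i => x (pr (k + i)) n) -
            ∏ i : Fin s, mean (pr (k + i)) (fun t => ind1 (I i) (x (pr (k + i)) t)))| ≤
            C * ((L : ℝ) ^ (1 / 2 + δ) * (K : ℝ) ^ (1 / 4 : ℝ)) := by
  obtain ⟨σ, C₀, hσ0, hσ1, hC₀, H0⟩ := fw_dig b hb η hη hη1
  obtain ⟨κ, C1, hκ0, hκ1, hC1, H⟩ := consecutive 1 σ C₀ one_pos le_rfl hσ0 hσ1 hC₀ b.factorial b.factorial_pos s hs δ hδ
  have hbr : (2 : ℝ) ≤ b := by exact_mod_cast hb
  have hlb : 0 < Real.log b := Real.log_pos (by linarith)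
  obtain ⟨c, hc⟩ : ∃ c, c = min (κ * Real.log b / 2) (1 / 8) := ⟨_, rfl⟩
  have hc0 : 0 < c := by rw [hc]; exact lt_min (by positivity) (by norm_num)
  have hc1 : c ≤ κ * Real.log b / 2 := by rw [hc]; exact min_le_left _ _
  have hc2 : c ≤ 1 / 8 := by rw [hc]; exact min_le_right _ _
  obtain ⟨C, hC⟩ : ∃ C, C = C1 * (2 * (1 + Real.log b)) := ⟨_, rfl⟩
  have hC2 : 2 * C1 ≤ C := by rw [hC]; nlinarith
  refine ⟨c, C, hc0, by linarith, fun K hK w hw x hx => ?_⟩
  obtain ⟨m, hm⟩ : ∃ m, m = Nat.sqrt K - 1 := ⟨_, rfl⟩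
  have hsq : Nat.sqrt K * Nat.sqrt K ≤ K := Nat.sqrt_le K
  have hsq1 : 1 ≤ Nat.sqrt K := Nat.one_le_iff_ne_zero.2 (by
    intro h
    rw [Nat.sqrt_eq_zero] at h
    omega)
  have hsq2 : K < (Nat.sqrt K + 1) * (Nat.sqrt K + 1) := Nat.lt_succ_sqrt K
  have hmK : m * (m + 1) + 1 ≤ K := by
    obtain ⟨u, hu⟩ : ∃ u, Nat.sqrt K = u + 1 := ⟨Nat.sqrt K - 1, by omega⟩
    rw [hu] at hsq
    have : m = u := by omega
    rw [this]
    nlinarith
  have hs0 : √(K : ℝ) < m + 2 := by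
    rw [Real.sqrt_lt' (by positivity)]
    have h1 : K < (m + 2) * (m + 2) := by
      have : Nat.sqrt K + 1 = m + 2 := by omega
      rwa [this] at hsq2
    have h2 : (K : ℝ) < (m + 2) * (m + 2) := by exact_mod_cast h1
    nlinarith
  have hs1 : (m : ℝ) + 1 ≤ √(K : ℝ) := by
    apply Real.le_sqrt_of_sq_le
    have h1 : (m + 1) * (m + 1) ≤ K := by
      have : Nat.sqrt K = m + 1 := by omega
      rwa [this] at hsq
    have h2 : ((m : ℝ) + 1) * (m + 1) ≤ K := by exact_mod_cast h1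
    nlinarith
  have hm0 : (0 : ℝ) ≤ m := Nat.cast_nonneg m
  have hFW := H0 w hw K m hmK
  have hN1 : 1 ≤ b ^ m := Nat.one_le_pow _ _ (by omega)
  obtain ⟨E, hE0, hE1, hE2⟩ := H _ _ _ hFW x hx hN1
  have hb0 : (0 : ℝ) < b := by linarith
  have hNp : ∀ a : ℝ, ((b ^ m : ℕ) : ℝ) ^ a = Real.exp (a * (m * Real.log b)) := by
    intro a
    rw [Real.rpow_def_of_pos (by positivity)]
    congr 1
    push_cast
    rw [Real.log_pow]
    ring
  have hlog : Real.log ((b ^ m : ℕ) : ℝ) = m * Real.log b := by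
    push_cast
    rw [Real.log_pow]
  -- comparison of the exponents
  have hcmp : c * √(K : ℝ) ≤ κ * (m * Real.log b) ∨ c * √(K : ℝ) ≤ 1 / 2 := by
    rcases Nat.lt_or_ge m 2 with h | h
    · right
      have h2 : (m : ℝ) ≤ 1 := by exact_mod_cast (by omega : m ≤ 1)
      have h4 : 0 ≤ √(K : ℝ) := Real.sqrt_nonneg _
      nlinarith
    · left
      have h2 : (2 : ℝ) ≤ m := by exact_mod_cast h
      have h3 : √(K : ℝ) ≤ 2 * m := by linarith
      calc c * √(K : ℝ) ≤ (κ * Real.log b / 2) * (2 * m) := mul_le_mul hc1 h3 (Real.sqrt_nonneg _) (by positivity)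
        _ = _ := by ring
  have hexp2 : Real.exp (1 / 2) < 2 := by
    have h1 := Real.exp_one_lt_d9
    have h2 : Real.exp 1 = Real.exp (1 / 2) * Real.exp (1 / 2) := by
      rw [← Real.exp_add]; norm_num
    by_contra hcon
    push Not at hcon
    nlinarith
  refine ⟨E, hE0, hE1.trans ?_, ?_⟩
  · rw [hNp]
    rcases hcmp with h | h
    · calc C1 * Real.exp (-κ * (m * Real.log b)) ≤ C1 * Real.exp (-(c * √K)) := by
            apply mul_le_mul_of_nonneg_left _ (by linarith)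
            apply Real.exp_le_exp.2
            linarith
        _ ≤ _ := by
            apply mul_le_mul_of_nonneg_right _ (Real.exp_pos _).le
            linarith
    · have h1 : Real.exp (-κ * (m * Real.log b)) ≤ 1 := by
        rw [Real.exp_le_one_iff]
        have : 0 ≤ κ * (m * Real.log b) := by positivity
        linarith
      have h2 : 1 ≤ 2 * Real.exp (-(c * √K)) := by
        have h3 : Real.exp (-(1 / 2)) ≤ Real.exp (-(c * √K)) := Real.exp_le_exp.2 (by linarith)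
        have h4 : 1 / 2 ≤ Real.exp (-(1 / 2)) := by
          rw [Real.exp_neg, ← one_div]
          exact one_div_le_one_div_of_le (Real.exp_pos _) hexp2.le
        linarith
      have h5 : 0 < Real.exp (-(c * √(K : ℝ))) := Real.exp_pos _
      calc C1 * Real.exp (-κ * (m * Real.log b)) ≤ C1 * 1 := mul_le_mul_of_nonneg_left h1 (by linarith)
        _ ≤ C1 * (2 * Real.exp (-(c * √K))) := mul_le_mul_of_nonneg_left h2 (by linarith)
        _ = (2 * C1) * Real.exp (-(c * √K)) := by ring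
        _ ≤ _ := mul_le_mul_of_nonneg_right hC2 h5.le
  · intro n hn hnE L hL I hI
    have hLN : (L : ℝ) ≤ ((b ^ m : ℕ) : ℝ) ^ κ := by
      rw [hNp]
      rcases hcmp with h | h
      · refine hL.trans ?_
        apply Real.exp_le_exp.2
        exact h
      · have h1 : (L : ℝ) < 2 := by
          refine lt_of_le_of_lt hL (lt_of_le_of_lt ?_ hexp2)
          exact Real.exp_le_exp.2 h
        have h2 : L ≤ 1 := by
          have : L < 2 := by exact_mod_cast h1
          omega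
        have h3 : (L : ℝ) ≤ 1 := by exact_mod_cast h2
        refine h3.trans ?_
        rw [Real.one_le_exp_iff]
        positivity
    have h := hE2 n (mem_range.2 hn) hnE L hLN I hI
    refine h.trans ?_
    unfold lam
    rw [hlog, hC, mul_assoc C1]
    apply mul_le_mul_of_nonneg_left _ (by linarith)
    have hL0 : 0 ≤ (L : ℝ) ^ (1 / 2 + δ) := by positivity
    have h5 : √(1 + m * Real.log b) ≤ 2 * (1 + Real.log b) * (K : ℝ) ^ (1 / 4 : ℝ) := by
      have h6 : (K : ℝ) ^ (1 / 4 : ℝ) = √(√(K : ℝ)) := by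
        rw [Real.sqrt_eq_rpow, Real.sqrt_eq_rpow, ← Real.rpow_mul (Nat.cast_nonneg K)]
        norm_num
      rw [h6]
      have h7 : 1 + m * Real.log b ≤ (1 + Real.log b) * √(K : ℝ) := by nlinarith
      calc √(1 + m * Real.log b) ≤ √((1 + Real.log b) * √(K : ℝ)) := Real.sqrt_le_sqrt h7
        _ = √(1 + Real.log b) * √(√(K : ℝ)) := Real.sqrt_mul (by linarith) _
        _ ≤ (2 * (1 + Real.log b)) * √(√(K : ℝ)) := by
            apply mul_le_mul_of_nonneg_right _ (Real.sqrt_nonneg _)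
            have h8 : √(1 + Real.log b) ≤ 1 + Real.log b := by
              exact Real.sqrt_le_self_iff.2 (Or.inr (by linarith))
            linarith
    calc (L : ℝ) ^ (1 / 2 + δ) * √(1 + m * Real.log b) ≤ (L : ℝ) ^ (1 / 2 + δ) * (2 * (1 + Real.log b) * (K : ℝ) ^ (1 / 4 : ℝ)) :=
          mul_le_mul_of_nonneg_left h5 hL0
      _ = _ := by ring

end Pool.Agent.HP25.FA
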