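import Pool.Agent.HP25.FA.B
import Pool.Agent.HP25.FD.B

set_option autoImplicit false

/-! The integers close to the multiples of a random real number whose law has a Fourier transform of polynomial decay: uniform
distribution in residue classes. The integers are taken modulo a large number `Q = 4 R`, and the nearest integer is smoothed by a
Fejér kernel. -/

namespace Pool.Agent.HP25.FA

open Finset MeasureTheory Pool.Agent.TH869.EVF Pool.Agent.TH869.SQ
open Pool.Agent.H807R2.Dav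
open Pool.Agent.H373R2.T7 (orth)
open Pool.Agent.HP25.FD (Decay ee_charFun ee_integrable decay_min)

/-- the kernel -/
noncomputable def ker (R : ℕ) (y : ℝ) : ℝ := ‖∑ a ∈ range R, ee (a * (y / (4 * R)))‖ ^ 2 / (4 * (R : ℝ) ^ 2)

lemma ker_nonneg (R : ℕ) (y : ℝ) : 0 ≤ ker R y := by unfold ker; positivity

lemma conj_ee (x : ℝ) : (starRingEnd ℂ) (ee x) = ee (-x) := by
  rw [ee_eq, ee_eq, ← Complex.exp_conj]
  congr 1
  rw [map_mul, Complex.conj_I, Complex.conj_ofReal]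
  push_cast
  ring

lemma ker_eq (R : ℕ) (y : ℝ) : ((ker R y : ℝ) : ℂ) =
    1 / (4 * (R : ℂ) ^ 2) * ∑ a ∈ range R, ∑ a' ∈ range R, ee (((a : ℝ) - a') * (y / (4 * R))) := by
  unfold ker
  have h1 : (((‖∑ a ∈ range R, ee (a * (y / (4 * R)))‖ ^ 2 : ℝ)) : ℂ) = (∑ a ∈ range R, ee (a * (y / (4 * R)))) *
      (starRingEnd ℂ) (∑ a ∈ range R, ee (a * (y / (4 * R)))) := by
    rw [Complex.mul_conj, Complex.normSq_eq_norm_sq]
  rw [Complex.ofReal_div, h1, map_sum, sum_mul_sum]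
  push_cast
  rw [div_eq_mul_one_div, mul_comm]
  congr 1
  apply sum_congr rfl
  intro a _
  apply sum_congr rfl
  intro a' _
  rw [conj_ee, ← ee_add]
  congr 1
  ring

lemma ker_le (R : ℕ) (y : ℝ) : ker R y ≤ 1 := by
  unfold ker
  rcases Nat.eq_zero_or_pos R with rfl | hR
  · simp
  have hR0 : (0 : ℝ) < R := by exact_mod_cast hR
  rw [div_le_one (by positivity)]
  have h1 : ‖∑ a ∈ range R, ee (a * (y / (4 * R)))‖ ≤ R := by
    refine (norm_sum_le _ _).trans ?_
    simp only [norm_ee]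
    rw [sum_const, card_range, nsmul_eq_mul, mul_one]
  have h2 := norm_nonneg (∑ a ∈ range R, ee (a * (y / (4 * R))))
  nlinarith

/-- the kernel is not small close to `0` -/
lemma ker_low (R : ℕ) (hR : 1 ≤ R) (u : ℝ) (hu : |u| ≤ 1 / 2) : 1 / 16 ≤ ker R u := by
  unfold ker
  have hR0 : (0 : ℝ) < R := by exact_mod_cast hR
  rw [le_div_iff₀ (by positivity)]
  have h1 : (R : ℝ) / 2 ≤ ‖∑ a ∈ range R, ee (a * (u / (4 * R)))‖ := by
    refine le_trans ?_ (Complex.re_le_norm _)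
    rw [Complex.re_sum]
    have h2 : ∀ a ∈ range R, (1 / 2 : ℝ) ≤ (ee (a * (u / (4 * R)))).re := by
      intro a ha
      rw [mem_range] at ha
      rw [ee_eq, Complex.exp_ofReal_mul_I_re]
      refine le_trans ?_ Real.one_sub_sq_div_two_le_cos
      have har : (a : ℝ) ≤ R := by exact_mod_cast ha.le
      have h3 : |(a : ℝ) * (u / (4 * R))| ≤ 1 / 8 := by
        rw [abs_mul, abs_div, abs_of_nonneg (Nat.cast_nonneg a), abs_of_pos (by positivity : (0 : ℝ) < 4 * R)]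
        calc (a : ℝ) * (|u| / (4 * R)) ≤ R * ((1 / 2) / (4 * R)) := by gcongr
          _ = 1 / 8 := by field_simp; norm_num
      have h4 : |2 * Real.pi * ((a : ℝ) * (u / (4 * R)))| ≤ 1 := by
        rw [abs_mul, abs_of_pos (by positivity : 0 < 2 * Real.pi)]
        have := Real.pi_lt_d2
        have h5 := abs_nonneg ((a : ℝ) * (u / (4 * R)))
        have h6 : 0 < Real.pi := Real.pi_pos
        nlinarith
      have h7 : (2 * Real.pi * ((a : ℝ) * (u / (4 * R)))) ^ 2 ≤ 1 := by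
        rw [← sq_abs]
        exact pow_le_one₀ (abs_nonneg _) h4
      linarith
    calc (R : ℝ) / 2 = ∑ a ∈ range R, (1 / 2 : ℝ) := by rw [sum_const, card_range, nsmul_eq_mul]; ring
      _ ≤ _ := sum_le_sum h2
  nlinarith

lemma ker_cont (R : ℕ) : Continuous (ker R) := by
  unfold ker
  have h : ∀ a : ℕ, Continuous (fun y : ℝ => ee (a * (y / (4 * R)))) := by
    intro a
    unfold ee
    fun_prop
  fun_prop

/-- the law of the residue class of a random integer close to `x` -/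
noncomputable def pr' (ν : Measure ℝ) (lam : ℝ) (R t : ℕ) : ℝ := ∫ x, ker R (lam * x - t) ∂ν

lemma ker_int (ν : Measure ℝ) [IsProbabilityMeasure ν] (lam : ℝ) (R t : ℕ) : Integrable (fun x => ker R (lam * x - t)) ν := by
  apply Integrable.of_bound (C := 1)
  · exact ((ker_cont R).comp (by fun_prop)).aestronglyMeasurable
  · filter_upwards with x
    rw [Real.norm_eq_abs, abs_of_nonneg (ker_nonneg _ _)]
    exact ker_le _ _

lemma pr'_nonneg (ν : Measure ℝ) (lam : ℝ) (R t : ℕ) : 0 ≤ pr' ν lam R t := integral_nonneg fun _ => ker_nonneg _ _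

/-- the characteristic function of the law -/
lemma pr'_char (ν : Measure ℝ) [IsProbabilityMeasure ν] (lam : ℝ) (R : ℕ) (hR : 1 ≤ R) (h : ℤ) :
    ∑ t ∈ range (4 * R), ((pr' ν lam R t : ℝ) : ℂ) * ee ((t : ℝ) * ((h : ℝ) / ((4 * R : ℕ) : ℝ))) =
      1 / (R : ℂ) * ∑ a ∈ range R, ∑ a' ∈ range R, (if ((4 * R : ℕ) : ℤ) ∣ h - ((a : ℤ) - a') then
        ∫ x, ee ((((a : ℝ) - a') / ((4 * R : ℕ) : ℝ) * lam) * x) ∂ν else 0) := by
  have hRc : (R : ℂ) ≠ 0 := by exact_mod_cast (by omega : R ≠ 0)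
  have hRr : (R : ℝ) ≠ 0 := by exact_mod_cast (by omega : R ≠ 0)
  have e1 : ∀ t ∈ range (4 * R), ((pr' ν lam R t : ℝ) : ℂ) * ee ((t : ℝ) * ((h : ℝ) / ((4 * R : ℕ) : ℝ))) =
      ∑ a ∈ range R, ∑ a' ∈ range R, 1 / (4 * (R : ℂ) ^ 2) * ((∫ x, ee ((((a : ℝ) - a') / ((4 * R : ℕ) : ℝ) * lam) * x) ∂ν) *
        ee ((t : ℝ) * (((h - ((a : ℤ) - a') : ℤ) : ℝ) / ((4 * R : ℕ) : ℝ)))) := by
    intro t _
    unfold pr'
    rw [← integral_complex_ofReal]
    have e2 : (fun x : ℝ => ((ker R (lam * x - t) : ℝ) : ℂ)) = fun x => ∑ a ∈ range R, ∑ a' ∈ range R,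
        (1 / (4 * (R : ℂ) ^ 2) * ee (-(((a : ℝ) - a') * (t / ((4 * R : ℕ) : ℝ))))) * ee ((((a : ℝ) - a') / ((4 * R : ℕ) : ℝ) * lam) * x) := by
      funext x
      rw [ker_eq, mul_sum]
      apply sum_congr rfl
      intro a _
      rw [mul_sum]
      apply sum_congr rfl
      intro a' _
      rw [mul_assoc, ← ee_add]
      congr 2
      push_cast
      ring
    rw [e2, integral_finsetSum _ (fun a _ => integrable_finsetSum _ fun a' _ => (ee_integrable ν _).const_mul _), sum_mul]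
    apply sum_congr rfl
    intro a _
    rw [integral_finsetSum _ (fun a' _ => (ee_integrable ν _).const_mul _), sum_mul]
    apply sum_congr rfl
    intro a' _
    rw [integral_const_mul]
    have e3 : ee (-(((a : ℝ) - a') * (t / ((4 * R : ℕ) : ℝ)))) * ee ((t : ℝ) * ((h : ℝ) / ((4 * R : ℕ) : ℝ))) =
        ee ((t : ℝ) * (((h - ((a : ℤ) - a') : ℤ) : ℝ) / ((4 * R : ℕ) : ℝ))) := by
      rw [← ee_add]
      congr 1
      push_cast
      field_simp
      ring
    rw [← e3]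
    ring
  rw [sum_congr rfl e1, sum_comm, mul_sum]
  apply sum_congr rfl
  intro a _
  rw [sum_comm, mul_sum]
  apply sum_congr rfl
  intro a' _
  rw [← mul_sum, ← mul_sum, orth (4 * R) (by omega)]
  split_ifs
  · push_cast
    field_simp
  · rw [mul_zero, mul_zero, mul_zero]

/-- the total weight -/
lemma pr'_sum (ν : Measure ℝ) [IsProbabilityMeasure ν] (lam : ℝ) (R : ℕ) (hR : 1 ≤ R) : ∑ t ∈ range (4 * R), pr' ν lam R t = 1 := by
  have h := pr'_char ν lam R hR 0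
  have hRc : (R : ℂ) ≠ 0 := by exact_mod_cast (by omega : R ≠ 0)
  have e1 : ∀ a ∈ range R, ∑ a' ∈ range R, (if ((4 * R : ℕ) : ℤ) ∣ 0 - ((a : ℤ) - a') then
        ∫ x, ee ((((a : ℝ) - a') / ((4 * R : ℕ) : ℝ) * lam) * x) ∂ν else 0) = 1 := by
    intro a ha
    rw [sum_eq_single a]
    · rw [if_pos (by simp)]
      simp [ee_zero]
    · intro a' ha' hne
      rw [if_neg]
      intro hd
      rw [mem_range] at ha ha'
      have h2 := Int.eq_zero_of_abs_lt_dvd hd (by rw [abs_lt]; constructor <;> push_cast <;> omega)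
      omega
    · intro h2
      exact absurd ha h2
  rw [sum_congr rfl e1, sum_const, card_range, nsmul_eq_mul, mul_one, one_div, inv_mul_cancel₀ hRc] at h
  have h2 : ((∑ t ∈ range (4 * R), pr' ν lam R t : ℝ) : ℂ) = 1 := by
    rw [← h]
    push_cast
    apply sum_congr rfl
    intro t _
    rw [zero_div, mul_zero, ee_zero, mul_one]
  exact_mod_cast h2

/-- the decay of the characteristic function -/
lemma pr'_decay (ν : Measure ℝ) [IsProbabilityMeasure ν] (C δ : ℝ) (hδ : 0 < δ) (hdec : Decay ν C δ) (lam : ℝ) (hlam : 1 ≤ lam) (R : ℕ)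
    (hR : 1 ≤ R) (M : ℕ) (hM : 1 ≤ M) (hMR : M ∣ 4 * R) (h : ℤ) (hh : ¬ (M : ℤ) ∣ h) :
    ‖∑ t ∈ range (4 * R), ((pr' ν lam R t : ℝ) : ℂ) * ee ((t : ℝ) * ((h : ℝ) / M))‖ ≤ C * (lam / M) ^ (-δ) := by
  obtain ⟨G, hG⟩ := hMR
  have hG1 : 1 ≤ G := by
    rcases Nat.eq_zero_or_pos G with rfl | h1
    · omega
    · exact h1
  have hRr : (0 : ℝ) < R := by exact_mod_cast hR
  have hMr : (0 : ℝ) < M := by exact_mod_cast hM
  have hGr : (0 : ℝ) < G := by exact_mod_cast hG1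
  have hC0 : 0 ≤ C := le_trans (by positivity) (hdec 0)
  have e1 : ∀ t : ℕ, ee ((t : ℝ) * ((h : ℝ) / M)) = ee ((t : ℝ) * (((h * G : ℤ) : ℝ) / ((4 * R : ℕ) : ℝ))) := by
    intro t
    congr 2
    rw [hG]
    push_cast
    field_simp
  simp only [e1]
  rw [pr'_char ν lam R hR]
  have key : ∀ a' ∈ range R, ‖∑ a ∈ range R, (if ((4 * R : ℕ) : ℤ) ∣ h * G - ((a : ℤ) - a') then
        ∫ x, ee ((((a : ℝ) - a') / ((4 * R : ℕ) : ℝ) * lam) * x) ∂ν else 0)‖ ≤ C * (lam / M) ^ (-δ) := by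
    intro a' ha'
    rw [mem_range] at ha'
    by_cases hex : ∃ a ∈ range R, ((4 * R : ℕ) : ℤ) ∣ h * G - ((a : ℤ) - a')
    · obtain ⟨a, ha, hd⟩ := hex
      rw [sum_eq_single a]
      · rw [if_pos hd, ee_charFun]
        have ha2 := mem_range.1 ha
        have h2 : (G : ℤ) ∣ (a : ℤ) - a' := by
          have h3 : (G : ℤ) ∣ h * G - ((a : ℤ) - a') := by
            refine dvd_trans ?_ hd
            rw [hG]
            push_cast
            exact dvd_mul_left _ _
          have h4 := dvd_sub (dvd_mul_left (G : ℤ) h) h3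
          have h5 : h * (G : ℤ) - (h * G - ((a : ℤ) - a')) = (a : ℤ) - a' := by ring
          rwa [h5] at h4
        have h3 : (a : ℤ) - a' ≠ 0 := by
          intro h0
          apply hh
          rw [h0, sub_zero, hG] at hd
          push_cast at hd
          exact Int.dvd_of_mul_dvd_mul_right (by exact_mod_cast (by omega : G ≠ 0)) hd
        have h4 : (G : ℝ) ≤ |(a : ℝ) - a'| := by
          have h5 := Int.le_of_dvd (abs_pos.2 h3) ((dvd_abs _ _).2 h2)
          have h6 : ((G : ℤ) : ℝ) ≤ ((|(a : ℤ) - a'| : ℤ) : ℝ) := by exact_mod_cast h5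
          push_cast at h6
          exact h6
        obtain ⟨τ, hτ⟩ : ∃ τ, τ = 2 * Real.pi * (((a : ℝ) - a') / ((4 * R : ℕ) : ℝ) * lam) := ⟨_, rfl⟩
        rw [← hτ]
        have h7 : lam / M ≤ |τ| := by
          have h14 : |τ| = 2 * Real.pi * (|(a : ℝ) - a'| / (M * G) * lam) := by
            rw [hτ, abs_mul (2 * Real.pi), abs_of_pos (by positivity : 0 < 2 * Real.pi), abs_mul _ lam, abs_of_pos (by linarith : 0 < lam),
              abs_div, hG]
            push_cast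
            rw [abs_of_pos (by positivity : (0 : ℝ) < M * G)]
          rw [h14]
          have h8 : 1 / (M : ℝ) ≤ |(a : ℝ) - a'| / (M * G) := by
            rw [div_le_div_iff₀ hMr (by positivity)]
            nlinarith
          have h9 : 1 ≤ 2 * Real.pi := by linarith [Real.pi_gt_three]
          calc lam / M = 1 * (1 / M * lam) := by ring
            _ ≤ 2 * Real.pi * (|(a : ℝ) - a'| / (M * G) * lam) := by
                apply mul_le_mul h9 _ (by positivity) (by positivity)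
                exact mul_le_mul_of_nonneg_right h8 (by linarith)
        have h10 := hdec τ
        have h11 : 0 < lam / M := by positivity
        have h12 : (lam / M) ^ δ ≤ |τ| ^ δ := Real.rpow_le_rpow h11.le h7 hδ.le
        have h13 : 0 < (lam / M) ^ δ := Real.rpow_pos_of_pos h11 _
        rw [Real.rpow_neg h11.le, ← div_eq_mul_inv, le_div_iff₀ h13]
        refine le_trans ?_ h10
        exact mul_le_mul_of_nonneg_left h12 (norm_nonneg _)
      · intro b hb hne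
        rw [if_neg]
        intro hd2
        apply hne
        have h3 := dvd_sub hd hd2
        have h4 : h * (G : ℤ) - ((a : ℤ) - a') - (h * G - ((b : ℤ) - a')) = (b : ℤ) - a := by ring
        rw [h4] at h3
        rw [mem_range] at hb ha
        have h5 := Int.eq_zero_of_abs_lt_dvd h3 (by rw [abs_lt]; constructor <;> push_cast <;> omega)
        omega
      · intro h2
        exact absurd ha h2
    · push Not at hex
      rw [sum_eq_zero (fun a ha => if_neg (hex a ha)), norm_zero]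
      positivity
  rw [sum_comm, norm_mul]
  have h1 : ‖(1 / (R : ℂ))‖ = 1 / R := by rw [norm_div, norm_one, Complex.norm_natCast]
  rw [h1]
  calc 1 / (R : ℝ) * ‖∑ a' ∈ range R, ∑ a ∈ range R, (if ((4 * R : ℕ) : ℤ) ∣ h * G - ((a : ℤ) - a') then
        ∫ x, ee ((((a : ℝ) - a') / ((4 * R : ℕ) : ℝ) * lam) * x) ∂ν else 0)‖
      ≤ 1 / (R : ℝ) * ∑ a' ∈ range R, C * (lam / M) ^ (-δ) := by
        apply mul_le_mul_of_nonneg_left _ (by positivity)
        exact (norm_sum_le _ _).trans (sum_le_sum key)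
    _ = _ := by
        rw [sum_const, card_range, nsmul_eq_mul]
        field_simp

/-- the probability of a residue class -/
lemma pr'_class (ν : Measure ℝ) [IsProbabilityMeasure ν] (C δ : ℝ) (hδ : 0 < δ) (hdec : Decay ν C δ) (lam : ℝ) (hlam : 1 ≤ lam) (R : ℕ)
    (hR : 1 ≤ R) (M : ℕ) (hM : 1 ≤ M) (hMR : M ∣ 4 * R) (a : ℕ) :
    |∑ t ∈ range (4 * R), pr' ν lam R t * (if (M : ℤ) ∣ (t : ℤ) - a then 1 else 0) - 1 / M| ≤ C * (lam / M) ^ (-δ) := by
  have hMr : (0 : ℝ) < M := by exact_mod_cast hM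
  have hMc : (M : ℂ) ≠ 0 := by exact_mod_cast (by omega : M ≠ 0)
  have hC0 : 0 ≤ C := le_trans (by positivity) (hdec 0)
  have e1 : ∑ t ∈ range (4 * R), pr' ν lam R t * (if (M : ℤ) ∣ (t : ℤ) - a then 1 else 0) - 1 / M =
      ∑ t ∈ range (4 * R), pr' ν lam R t * ((if (M : ℤ) ∣ (t : ℤ) - a then 1 else 0) - 1 / M) := by
    simp only [mul_sub]
    rw [sum_sub_distrib, ← sum_mul, pr'_sum ν lam R hR, one_mul]
  have e2 : ∀ t : ℕ, ((((if (M : ℤ) ∣ (t : ℤ) - a then (1 : ℝ) else 0) - 1 / M : ℝ)) : ℂ) =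
      ∑ h ∈ (range M).erase 0, 1 / (M : ℂ) * (ee (-((a : ℝ) * ((h : ℝ) / M))) * ee ((t : ℝ) * ((h : ℝ) / M))) := by
    intro t
    have h1 := orth M hM ((t : ℤ) - a)
    rw [← add_sum_erase _ _ (mem_range.2 (by omega : 0 < M))] at h1
    have h2 : ∑ h ∈ (range M).erase 0, ee ((h : ℝ) * ((((t : ℤ) - a : ℤ) : ℝ) / M)) = (if (M : ℤ) ∣ (t : ℤ) - a then (M : ℂ) else 0) - 1 := by
      rw [← h1, Nat.cast_zero, zero_mul, ee_zero]
      ring
    have h3 : ∀ h ∈ (range M).erase 0, 1 / (M : ℂ) * (ee (-((a : ℝ) * ((h : ℝ) / M))) * ee ((t : ℝ) * ((h : ℝ) / M))) =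
        1 / (M : ℂ) * ee ((h : ℝ) * ((((t : ℤ) - a : ℤ) : ℝ) / M)) := by
      intro h _
      rw [← ee_add]
      congr 2
      push_cast
      ring
    rw [sum_congr rfl h3, ← mul_sum, h2]
    split_ifs
    · push_cast
      field_simp
    · push_cast
      ring
  rw [e1]
  have e3 : ((∑ t ∈ range (4 * R), pr' ν lam R t * ((if (M : ℤ) ∣ (t : ℤ) - a then 1 else 0) - 1 / M) : ℝ) : ℂ) =
      ∑ h ∈ (range M).erase 0, 1 / (M : ℂ) * (ee (-((a : ℝ) * ((h : ℝ) / M))) *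
        ∑ t ∈ range (4 * R), ((pr' ν lam R t : ℝ) : ℂ) * ee ((t : ℝ) * ((h : ℝ) / M))) := by
    rw [Complex.ofReal_sum]
    have e4 : ∀ t ∈ range (4 * R), ((pr' ν lam R t * ((if (M : ℤ) ∣ (t : ℤ) - a then 1 else 0) - 1 / M) : ℝ) : ℂ) =
        ∑ h ∈ (range M).erase 0, ((pr' ν lam R t : ℝ) : ℂ) * (1 / (M : ℂ) * (ee (-((a : ℝ) * ((h : ℝ) / M))) * ee ((t : ℝ) * ((h : ℝ) / M)))) := by
      intro t _
      rw [Complex.ofReal_mul, e2 t, mul_sum]
    rw [sum_congr rfl e4, sum_comm]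
    apply sum_congr rfl
    intro h _
    rw [mul_sum, mul_sum]
    apply sum_congr rfl
    intro t _
    ring
  rw [← Real.norm_eq_abs, ← Complex.norm_real, e3]
  refine (norm_sum_le _ _).trans ?_
  have h5 : ∀ h ∈ (range M).erase 0, ‖1 / (M : ℂ) * (ee (-((a : ℝ) * ((h : ℝ) / M))) *
        ∑ t ∈ range (4 * R), ((pr' ν lam R t : ℝ) : ℂ) * ee ((t : ℝ) * ((h : ℝ) / M)))‖ ≤ 1 / M * (C * (lam / M) ^ (-δ)) := by
    intro h hh
    rw [mem_erase, mem_range] at hh
    rw [norm_mul, norm_mul, norm_ee, one_mul]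
    have h6 : ‖(1 / (M : ℂ))‖ = 1 / M := by rw [norm_div, norm_one, Complex.norm_natCast]
    rw [h6]
    apply mul_le_mul_of_nonneg_left _ (by positivity)
    have h7 := pr'_decay ν C δ hδ hdec lam hlam R hR M hM hMR (h : ℤ) (by
      intro hd
      have h8 := Int.natCast_dvd_natCast.1 hd
      have := Nat.le_of_dvd (by omega) h8
      omega)
    push_cast at h7
    exact h7
  refine (sum_le_sum h5).trans ?_
  rw [sum_const, card_erase_of_mem (mem_range.2 (by omega)), card_range, nsmul_eq_mul]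
  have h9 : ((M - 1 : ℕ) : ℝ) ≤ M := by exact_mod_cast Nat.sub_le _ _
  have h10 : 0 ≤ C * (lam / M) ^ (-δ) := by positivity
  calc ((M - 1 : ℕ) : ℝ) * (1 / M * (C * (lam / M) ^ (-δ))) ≤ M * (1 / M * (C * (lam / M) ^ (-δ))) := by gcongr
    _ = _ := by field_simp

/-- **Uniform distribution of the integers close to the multiples of a random number** -/
theorem fw_decay (C δ : ℝ) (hδ : 0 < δ) (hC : 1 ≤ C) (ν : Measure ℝ) [IsProbabilityMeasure ν] (hdec : Decay ν C δ)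
    (lam : ℝ) (hlam : 1 ≤ lam) (N : ℕ) (hN : 1 ≤ N) (hNlam : (N : ℝ) ≤ lam) (R : ℕ) (hR : 1 ≤ R) (hNR : ∀ M : ℕ, 1 ≤ M → M ≤ N → M ∣ 4 * R) :
    FW (range (4 * R)) (pr' ν lam R) 1 N (1 / 2) (δ / 2) C := by
  refine ⟨hC, fun n _ => pr'_nonneg _ _ _ _, (pr'_sum ν lam R hR).le, ?_⟩
  intro M hM _ hMN F hper hF hsum
  have hN1 : (1 : ℝ) ≤ N := by exact_mod_cast hN
  have hN0 : (0 : ℝ) < N := by linarith
  have hM0 : (0 : ℝ) < M := by exact_mod_cast hM
  have hMN' : M ≤ N := by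
    have h1 : (M : ℝ) ≤ N := hMN.trans (by
      calc (N : ℝ) ^ (1 / 2 : ℝ) ≤ (N : ℝ) ^ (1 : ℝ) := Real.rpow_le_rpow_of_exponent_le hN1 (by norm_num)
        _ = N := Real.rpow_one _)
    exact_mod_cast h1
  have hMR := hNR M hM hMN'
  rw [sum_class _ _ F M hM hper]
  have e1 : ∑ a ∈ range M, F a * ∑ n ∈ range (4 * R), pr' ν lam R n * (if (M : ℤ) ∣ (n : ℤ) - a then 1 else 0) =
      ∑ a ∈ range M, F a * (∑ n ∈ range (4 * R), pr' ν lam R n * (if (M : ℤ) ∣ (n : ℤ) - a then 1 else 0) - 1 / M) := by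
    have : ∑ a ∈ range M, F a * (1 / (M : ℝ)) = 0 := by rw [← sum_mul, hsum, zero_mul]
    simp only [mul_sub]
    rw [sum_sub_distrib, this, sub_zero]
  rw [e1]
  have h2 : (lam / M) ^ (-δ) ≤ (N : ℝ) ^ (-(δ / 2)) := by
    have h3 : (N : ℝ) ^ (1 / 2 : ℝ) ≤ lam / M := by
      rw [le_div_iff₀ hM0]
      calc (N : ℝ) ^ (1 / 2 : ℝ) * M ≤ (N : ℝ) ^ (1 / 2 : ℝ) * (N : ℝ) ^ (1 / 2 : ℝ) := by gcongr
        _ = N := by rw [← Real.rpow_add hN0]; norm_num
        _ ≤ lam := hNlam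
    calc (lam / M) ^ (-δ) ≤ ((N : ℝ) ^ (1 / 2 : ℝ)) ^ (-δ) :=
          Real.rpow_le_rpow_of_nonpos (by positivity) h3 (by linarith)
      _ = _ := by rw [← Real.rpow_mul hN0.le]; congr 1; ring
  have hC0 : 0 ≤ C := by linarith
  calc |∑ a ∈ range M, F a * (∑ n ∈ range (4 * R), pr' ν lam R n * (if (M : ℤ) ∣ (n : ℤ) - a then 1 else 0) - 1 / M)|
      ≤ ∑ a ∈ range M, |F a * (∑ n ∈ range (4 * R), pr' ν lam R n * (if (M : ℤ) ∣ (n : ℤ) - a then 1 else 0) - 1 / M)| := abs_sum_le_sum_abs _ _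
    _ ≤ ∑ a ∈ range M, C * (N : ℝ) ^ (-(δ / 2)) := by
        refine sum_le_sum fun a _ => ?_
        rw [abs_mul]
        calc _ ≤ 1 * (C * (lam / M) ^ (-δ)) := mul_le_mul (hF a) (pr'_class ν C δ hδ hdec lam hlam R hR M hM hMR a) (abs_nonneg _) (by norm_num)
          _ ≤ _ := by rw [one_mul]; exact mul_le_mul_of_nonneg_left h2 hC0
    _ = _ := by rw [sum_const, card_range, nsmul_eq_mul]

end Pool.Agent.HP25.FA
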