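import Pool.Agent.HP25.FA.C

set_option autoImplicit false

/-! Functions at consecutive primes of all integers close to the multiples of a random real number. -/

namespace Pool.Agent.HP25.FA

open Finset MeasureTheory Filter Pool.Agent.TH869.EVF Pool.Agent.TH869.SQ
open Pool.Agent.HP25.FD (Decay decay_min)

/-- the difference of the number of the hits of the box and of its expected value -/
noncomputable def dif {s : ℕ} (X : ℕ → ℤ → ℝ) (I : Fin s → Set ℝ) (L : ℕ) (t : ℤ) : ℝ :=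
  ∑ k ∈ range L, (ind I (fun i => X (pr (k + i)) t) -
    ∏ i : Fin s, mean (pr (k + i)) (fun u => ind1 (I i) (X (pr (k + i)) (u : ℤ))))

lemma per_dvd {X : ℤ → ℝ} {p : ℕ} (h : ∀ t, X (t + p) = X t) (a b : ℤ) (hd : (p : ℤ) ∣ a - b) : X a = X b := by
  have h1 : ∀ (n : ℕ) (t : ℤ), X (t + n * p) = X t := by
    intro n
    induction n with
    | zero => intro t; simp
    | succ n ih =>
      intro t
      have : t + ((n + 1 : ℕ) : ℤ) * p = (t + n * p) + p := by push_cast; ring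
      rw [this, h, ih]
  obtain ⟨c, hc⟩ := hd
  rcases le_total 0 c with h0 | h0
  · obtain ⟨n, rfl⟩ := Int.eq_ofNat_of_zero_le h0
    have : a = b + (n : ℤ) * p := by linarith
    rw [this, h1]
  · obtain ⟨n, hn⟩ := Int.eq_ofNat_of_zero_le (show 0 ≤ -c by linarith)
    have : b = a + (n : ℤ) * p := by rw [← hn]; linarith
    rw [this, h1]

/-- the probability that the nearest integer is in a set of residue classes -/
lemma round_prob (ν : Measure ℝ) [IsProbabilityMeasure ν] (lam : ℝ) (R : ℕ) (hR : 1 ≤ R) (E : Finset ℕ) :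
    ν.real {x | (round (lam * x) % ((4 * R : ℕ) : ℤ)).toNat ∈ E} ≤ 16 * ∑ t ∈ E, pr' ν lam R t := by
  have h1 := mul_meas_ge_le_integral_of_nonneg (μ := ν) (f := fun x => ∑ t ∈ E, ker R (lam * x - t))
    (Eventually.of_forall fun x => sum_nonneg fun t _ => ker_nonneg _ _) (integrable_finsetSum _ fun t _ => ker_int ν lam R t) (1 / 16)
  rw [integral_finsetSum _ (fun t _ => ker_int ν lam R t)] at h1
  have h2 : {x | (round (lam * x) % ((4 * R : ℕ) : ℤ)).toNat ∈ E} ⊆ {x | 1 / 16 ≤ ∑ t ∈ E, ker R (lam * x - t)} := by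
    intro x hx
    simp only [Set.mem_ofPred_eq] at hx ⊢
    obtain ⟨t, ht⟩ : ∃ t, t = (round (lam * x) % ((4 * R : ℕ) : ℤ)).toNat := ⟨_, rfl⟩
    rw [← ht] at hx
    refine le_trans ?_ (single_le_sum (f := fun t : ℕ => ker R (lam * x - t)) (fun t _ => ker_nonneg _ _) hx)
    -- periodicity of the kernel
    have hQ : (0 : ℤ) < ((4 * R : ℕ) : ℤ) := by exact_mod_cast (by omega : 0 < 4 * R)
    have h3 : (t : ℤ) = round (lam * x) % ((4 * R : ℕ) : ℤ) := by
      rw [ht]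
      exact Int.toNat_of_nonneg (Int.emod_nonneg _ hQ.ne')
    obtain ⟨c, hc⟩ : ∃ c : ℤ, c = round (lam * x) / ((4 * R : ℕ) : ℤ) := ⟨_, rfl⟩
    have h4 : round (lam * x) = t + ((4 * R : ℕ) : ℤ) * c := by
      rw [h3, hc]
      exact (Int.emod_add_mul_ediv _ _).symm
    have h5 : ker R (lam * x - t) = ker R (lam * x - round (lam * x)) := by
      unfold ker
      congr 3
      apply sum_congr rfl
      intro a _
      have hR0 : (R : ℝ) ≠ 0 := by exact_mod_cast (by omega : R ≠ 0)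
      have h6 : (a : ℝ) * ((lam * x - t) / (4 * R)) = a * ((lam * x - round (lam * x)) / (4 * R)) + ((a * c : ℤ) : ℝ) := by
        rw [h4]
        push_cast
        field_simp
        ring
      rw [h6, Pool.Agent.H807R2.Dav.ee_add_int]
    show 1 / 16 ≤ ker R (lam * x - t)
    rw [h5]
    exact ker_low R hR _ (abs_sub_round _)
  have h3 := measureReal_mono h2 (measure_ne_top ν _)
  unfold pr'
  linarith

/-- **One scale.** -/
theorem near_consecutive (C δ₀ : ℝ) (hδ₀ : 0 < δ₀) (s : ℕ) (hs : 1 ≤ s) (δ : ℝ) (hδ : 0 < δ) :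
    ∃ κ C' : ℝ, 0 < κ ∧ 1 ≤ C' ∧ ∀ (ν : Measure ℝ) [IsProbabilityMeasure ν], Decay ν C δ₀ → ∀ lam : ℝ, 1 ≤ lam →
      ∀ X : ℕ → ℤ → ℝ, (∀ (p : ℕ) (t : ℤ), X p (t + p) = X p t) →
      ν.real {x | ∃ t : ℤ, |(t : ℝ) - lam * x| ≤ lam ^ κ ∧ ∃ L : ℕ, (L : ℝ) ≤ lam ^ κ ∧ ∃ I : Fin s → Set ℝ, (∀ i, (I i).OrdConnected) ∧
        C' * ((L : ℝ) ^ (1 / 2 + δ) * √(1 + Real.log lam)) < |dif X I L t|} ≤ C' * lam ^ (-κ) := by
  classical
  obtain ⟨δ₁, hδ₁⟩ : ∃ δ₁, δ₁ = min δ₀ 1 := ⟨_, rfl⟩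
  have hd0 : 0 < δ₁ := by rw [hδ₁]; exact lt_min hδ₀ one_pos
  have hd1 : δ₁ ≤ 1 := by rw [hδ₁]; exact min_le_right _ _
  obtain ⟨κ₁, C₁, hκ0, hκ1, hC1, H⟩ := consecutive (1 / 2) (δ₁ / 2) (max C 1) (by norm_num) (by norm_num) (by positivity)
    (by linarith) (le_max_right _ _) 1 le_rfl s hs δ hδ
  refine ⟨κ₁ / 2, 160 * C₁, by positivity, by linarith, fun ν _ hdec lam hlam X hX => ?_⟩
  obtain ⟨κ, hκ⟩ : ∃ κ, κ = κ₁ / 2 := ⟨_, rfl⟩
  rw [← hκ]
  have hκp : 0 < κ := by rw [hκ]; positivity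
  have hκl : κ < 1 := by rw [hκ]; linarith
  have hdec' : Decay ν (max C 1) δ₁ := by rw [hδ₁]; exact decay_min ν C δ₀ hδ₀ hdec
  obtain ⟨N, hN⟩ : ∃ N, N = ⌊lam⌋₊ := ⟨_, rfl⟩
  have hN1 : 1 ≤ N := by rw [hN]; exact Nat.le_floor (by exact_mod_cast hlam)
  have hNle : (N : ℝ) ≤ lam := by rw [hN]; exact Nat.floor_le (by linarith)
  have hNlt : lam < N + 1 := by rw [hN]; exact Nat.lt_floor_add_one _
  have hN1r : (1 : ℝ) ≤ N := by exact_mod_cast hN1
  have hN0 : (0 : ℝ) < N := by linarith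
  have hlam0 : 0 < lam := by linarith
  obtain ⟨T, hT⟩ : ∃ T, T = pr (N + s) := ⟨_, rfl⟩
  have hNT : N ≤ T := by
    have := Nat.add_two_le_nth_prime (N + s)
    rw [hT]
    unfold pr
    omega
  obtain ⟨R, hR⟩ : ∃ R, R = T.factorial := ⟨_, rfl⟩
  have hR1 : 1 ≤ R := by rw [hR]; exact T.factorial_pos
  have hdiv : ∀ M : ℕ, 1 ≤ M → M ≤ T → M ∣ 4 * R := by
    intro M hM hMT
    rw [hR]
    exact (Nat.dvd_factorial hM hMT).mul_left 4
  have hFW := fw_decay (max C 1) δ₁ hd0 (le_max_right _ _) ν hdec' lam hlam N hN1 hNle R hR1 (fun M hM hMN => hdiv M hM (hMN.trans hNT))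
  have hEx : ∀ h : ℤ, ∃ E : Finset ℕ, E ⊆ range (4 * R) ∧ ∑ n ∈ E, pr' ν lam R n ≤ C₁ * (N : ℝ) ^ (-κ₁) ∧
        ∀ n ∈ range (4 * R), n ∉ E → ∀ K : ℕ, (K : ℝ) ≤ (N : ℝ) ^ κ₁ →
          ∀ I : Fin s → Set ℝ, (∀ i, (I i).OrdConnected) →
          |∑ k ∈ range K, (ind I (fun i => X (pr (k + i)) ((n : ℤ) + h)) -
            ∏ i : Fin s, mean (pr (k + i)) (fun t => ind1 (I i) (X (pr (k + i)) ((t : ℤ) + h))))| ≤
            C₁ * Pool.Agent.TH869.SQ.lam δ N K := by
    intro h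
    exact H (range (4 * R)) (pr' ν lam R) N hFW (fun p n => X p ((n : ℤ) + h)) (fun p n => by
      have : ((n + p : ℕ) : ℤ) + h = ((n : ℤ) + h) + p := by push_cast; ring
      show X p (((n + p : ℕ) : ℤ) + h) = _
      rw [this, hX]) hN1
  choose E hE0 hE1 hE2 using hEx
  -- the mean over all residues does not change under a shift
  have hmean : ∀ (p : ℕ) (hp : 0 < p) (h : ℤ) (g : ℤ → ℝ), (∀ t, g (t + p) = g t) →
      mean p (fun t : ℕ => g ((t : ℤ) + h)) = mean p (fun t : ℕ => g (t : ℤ)) := by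
    intro p hp h g hg
    unfold mean
    congr 1
    have hpz : (0 : ℤ) < p := by exact_mod_cast hp
    apply sum_nbij' (i := fun t : ℕ => (((t : ℤ) + h) % p).toNat) (j := fun t : ℕ => (((t : ℤ) - h) % p).toNat)
    · intro t _
      rw [mem_range]
      have h1 := Int.emod_lt_of_pos ((t : ℤ) + h) hpz
      have h2 := Int.emod_nonneg ((t : ℤ) + h) hpz.ne'
      omega
    · intro t _
      rw [mem_range]
      have h1 := Int.emod_lt_of_pos ((t : ℤ) - h) hpz
      have h2 := Int.emod_nonneg ((t : ℤ) - h) hpz.ne'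
      omega
    · intro t ht
      rw [mem_range] at ht
      have h2 := Int.emod_nonneg ((t : ℤ) + h) hpz.ne'
      have h3 : (((((t : ℤ) + h) % p).toNat : ℕ) : ℤ) = ((t : ℤ) + h) % p := Int.toNat_of_nonneg h2
      show (((((((t : ℤ) + h) % p).toNat : ℕ) : ℤ) - h) % p).toNat = t
      rw [h3, Int.emod_sub_emod]
      have h4 : (t : ℤ) + h - h = t := by ring
      rw [h4, Int.emod_eq_of_lt (by positivity) (by exact_mod_cast ht)]
      simp
    · intro t ht
      rw [mem_range] at ht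
      have h2 := Int.emod_nonneg ((t : ℤ) - h) hpz.ne'
      have h3 : (((((t : ℤ) - h) % p).toNat : ℕ) : ℤ) = ((t : ℤ) - h) % p := Int.toNat_of_nonneg h2
      show (((((((t : ℤ) - h) % p).toNat : ℕ) : ℤ) + h) % p).toNat = t
      rw [h3, Int.emod_add_emod]
      have h4 : (t : ℤ) - h + h = t := by ring
      rw [h4, Int.emod_eq_of_lt (by positivity) (by exact_mod_cast ht)]
      simp
    · intro t _
      apply per_dvd hg
      have h2 := Int.emod_nonneg ((t : ℤ) + h) hpz.ne'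
      have h3 : (((((t : ℤ) + h) % p).toNat : ℕ) : ℤ) = ((t : ℤ) + h) % p := Int.toNat_of_nonneg h2
      rw [h3]
      exact Int.dvd_self_sub_emod
  obtain ⟨Hw, hHw⟩ : ∃ Hw : ℕ, Hw = ⌊lam ^ κ⌋₊ + 1 := ⟨_, rfl⟩
  have hlk : 1 ≤ lam ^ κ := Real.one_le_rpow hlam hκp.le
  -- the cover
  have hcov : {x | ∃ t : ℤ, |(t : ℝ) - lam * x| ≤ lam ^ κ ∧ ∃ L : ℕ, (L : ℝ) ≤ lam ^ κ ∧ ∃ I : Fin s → Set ℝ, (∀ i, (I i).OrdConnected) ∧
        160 * C₁ * ((L : ℝ) ^ (1 / 2 + δ) * √(1 + Real.log lam)) < |dif X I L t|} ⊆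
      ⋃ h ∈ Icc (-(Hw : ℤ)) Hw, {x | (round (lam * x) % ((4 * R : ℕ) : ℤ)).toNat ∈ E h} := by
    rintro x ⟨t, ht, L, hL, I, hI, hbad⟩
    rw [Set.mem_iUnion₂]
    refine ⟨t - round (lam * x), ?_, ?_⟩
    · have h1 := abs_sub_round (lam * x)
      have h2 : |(((t - round (lam * x) : ℤ)) : ℝ)| ≤ lam ^ κ + 1 / 2 := by
        push_cast
        have : (t : ℝ) - round (lam * x) = ((t : ℝ) - lam * x) + (lam * x - round (lam * x)) := by ring
        rw [this]
        exact (abs_add_le _ _).trans (add_le_add ht h1)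
      have h3 : lam ^ κ < ⌊lam ^ κ⌋₊ + 1 := Nat.lt_floor_add_one _
      have h4 : |(((t - round (lam * x) : ℤ)) : ℝ)| < ((Hw : ℤ) : ℝ) + 1 := by
        rw [hHw]
        push_cast
        push_cast at h2
        linarith
      have h5 : |t - round (lam * x)| < (Hw : ℤ) + 1 := by exact_mod_cast h4
      rw [mem_Icc]
      rw [abs_lt] at h5
      omega
    · simp only [Set.mem_ofPred_eq]
      obtain ⟨h, hh⟩ : ∃ h, h = t - round (lam * x) := ⟨_, rfl⟩
      obtain ⟨n, hn⟩ : ∃ n, n = (round (lam * x) % ((4 * R : ℕ) : ℤ)).toNat := ⟨_, rfl⟩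
      rw [← hh, ← hn]
      by_contra hcon
      have hQ : (0 : ℤ) < ((4 * R : ℕ) : ℤ) := by exact_mod_cast (by omega : 0 < 4 * R)
      have hn2 : (n : ℤ) = round (lam * x) % ((4 * R : ℕ) : ℤ) := by
        rw [hn]
        exact Int.toNat_of_nonneg (Int.emod_nonneg _ hQ.ne')
      have hnr : n < 4 * R := by
        have := Int.emod_lt_of_pos (round (lam * x)) hQ
        rw [← hn2] at this
        exact_mod_cast this
      have hLN : (L : ℝ) ≤ (N : ℝ) ^ κ₁ := by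
        rcases Nat.lt_or_ge N 2 with h2 | h2
        · have h3 : N = 1 := by omega
          rw [h3] at hNlt
          norm_num at hNlt
          have h4 : lam ^ κ < 2 := by
            calc lam ^ κ ≤ lam ^ (1 : ℝ) := Real.rpow_le_rpow_of_exponent_le hlam hκl.le
              _ = lam := Real.rpow_one _
              _ < 2 := by linarith
          have h5 : (L : ℝ) < 2 := lt_of_le_of_lt hL h4
          have h6 : L ≤ 1 := by
            have : L < 2 := by exact_mod_cast h5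
            omega
          have h7 : (L : ℝ) ≤ 1 := by exact_mod_cast h6
          exact h7.trans (Real.one_le_rpow hN1r hκ0.le)
        · have h2r : (2 : ℝ) ≤ N := by exact_mod_cast h2
          calc (L : ℝ) ≤ lam ^ κ := hL
            _ ≤ ((N : ℝ) ^ (2 : ℕ)) ^ κ := Real.rpow_le_rpow hlam0.le (by nlinarith) hκp.le
            _ = (N : ℝ) ^ κ₁ := by
              rw [← Real.rpow_natCast, ← Real.rpow_mul hN0.le, hκ]
              congr 1
              push_cast
              ring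
      have hLN' : L ≤ N := by
        have : (L : ℝ) ≤ N := hLN.trans (by
          calc (N : ℝ) ^ κ₁ ≤ (N : ℝ) ^ (1 : ℝ) := Real.rpow_le_rpow_of_exponent_le hN1r hκ1
            _ = N := Real.rpow_one _)
        exact_mod_cast this
      have h8 := hE2 h n (mem_range.2 hnr) hcon L hLN I hI
      have h9 : ∑ k ∈ range L, (ind I (fun i => X (pr (k + i)) ((n : ℤ) + h)) -
            ∏ i : Fin s, mean (pr (k + i)) (fun t => ind1 (I i) (X (pr (k + i)) ((t : ℤ) + h)))) = dif X I L t := by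
        unfold dif
        apply sum_congr rfl
        intro k hk
        rw [mem_range] at hk
        congr 1
        · congr 1
          funext i
          apply per_dvd (hX _)
          have h10 : ((pr (k + i) : ℕ) : ℤ) ∣ ((4 * R : ℕ) : ℤ) := by
            apply Int.natCast_dvd_natCast.2
            apply hdiv _ (pr_prime _).pos
            rw [hT]
            exact Nat.nth_monotone Nat.infinite_setOfPred_prime (by have := i.isLt; omega)
          refine h10.trans ?_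
          rw [hn2, hh]
          have h11 : round (lam * x) % ((4 * R : ℕ) : ℤ) + (t - round (lam * x)) - t = -(round (lam * x) - round (lam * x) % ((4 * R : ℕ) : ℤ)) := by ring
          rw [h11]
          exact (Int.dvd_self_sub_emod).neg_right
        · apply prod_congr rfl
          intro i _
          exact hmean (pr (k + i)) (pr_prime _).pos h (fun t => ind1 (I i) (X (pr (k + i)) t)) (fun t => by
            show ind1 (I i) (X (pr (k + i)) (t + (pr (k + i) : ℕ))) = _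
            rw [hX])
      rw [h9] at h8
      have h12 : C₁ * Pool.Agent.TH869.SQ.lam δ N L ≤ 160 * C₁ * ((L : ℝ) ^ (1 / 2 + δ) * √(1 + Real.log lam)) := by
        unfold Pool.Agent.TH869.SQ.lam
        apply mul_le_mul (by linarith) _ (by positivity) (by linarith)
        apply mul_le_mul_of_nonneg_left _ (by positivity)
        apply Real.sqrt_le_sqrt
        have := Real.log_le_log hN0 hNle
        linarith
      linarith
  refine (measureReal_mono hcov (measure_ne_top ν _)).trans ?_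
  refine (measureReal_biUnion_finset_le _ _).trans ?_
  have h1 : ∀ h ∈ Icc (-(Hw : ℤ)) Hw, ν.real {x | (round (lam * x) % ((4 * R : ℕ) : ℤ)).toNat ∈ E h} ≤ 16 * (C₁ * (N : ℝ) ^ (-κ₁)) := by
    intro h _
    refine (round_prob ν lam R hR1 (E h)).trans ?_
    linarith [hE1 h]
  refine (sum_le_sum h1).trans ?_
  rw [sum_const, nsmul_eq_mul, Int.card_Icc]
  have h2 : (((Hw : ℤ) + 1 - -(Hw : ℤ)).toNat : ℝ) ≤ 5 * lam ^ κ := by
    have h3 : ((Hw : ℤ) + 1 - -(Hw : ℤ)).toNat = 2 * Hw + 1 := by omega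
    rw [h3, hHw]
    push_cast
    have := Nat.floor_le (show 0 ≤ lam ^ κ by positivity)
    linarith
  have h3 : (N : ℝ) ^ (-κ₁) ≤ 2 * lam ^ (-κ₁) := by
    have h4 : lam / 2 ≤ N := by linarith
    calc (N : ℝ) ^ (-κ₁) ≤ (lam / 2) ^ (-κ₁) := Real.rpow_le_rpow_of_nonpos (by positivity) h4 (by linarith)
      _ = lam ^ (-κ₁) * (1 / 2) ^ (-κ₁) := by
          rw [div_eq_mul_one_div lam 2, Real.mul_rpow hlam0.le (by norm_num)]
      _ ≤ lam ^ (-κ₁) * 2 := by
          apply mul_le_mul_of_nonneg_left _ (by positivity)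
          rw [one_div, Real.inv_rpow (by norm_num), ← Real.rpow_neg (by norm_num), neg_neg]
          calc (2 : ℝ) ^ κ₁ ≤ 2 ^ (1 : ℝ) := Real.rpow_le_rpow_of_exponent_le (by norm_num) hκ1
            _ = 2 := Real.rpow_one _
      _ = _ := by ring
  have h5 : lam ^ κ * lam ^ (-κ₁) = lam ^ (-κ) := by
    rw [← Real.rpow_add hlam0]
    congr 1
    rw [hκ]
    ring
  have h6 : 0 ≤ (N : ℝ) ^ (-κ₁) := by positivity
  have h7 : 0 ≤ lam ^ (-κ₁) := by positivity
  calc (((Hw : ℤ) + 1 - -(Hw : ℤ)).toNat : ℝ) * (16 * (C₁ * (N : ℝ) ^ (-κ₁)))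
      ≤ (5 * lam ^ κ) * (16 * (C₁ * (2 * lam ^ (-κ₁)))) := by gcongr
    _ = 160 * C₁ * (lam ^ κ * lam ^ (-κ₁)) := by ring
    _ = _ := by rw [h5]

/-- **Almost all points** -/
theorem ae_consecutive (C δ₀ : ℝ) (hδ₀ : 0 < δ₀) (s : ℕ) (hs : 1 ≤ s) (δ : ℝ) (hδ : 0 < δ) :
    ∃ κ C' : ℝ, 0 < κ ∧ 1 ≤ C' ∧ ∀ (ν : Measure ℝ) [IsProbabilityMeasure ν], Decay ν C δ₀ → ∀ lam : ℕ → ℝ, (∀ k, 1 ≤ lam k) →
      Summable (fun k => lam k ^ (-κ)) →
      ∀ X : ℕ → ℤ → ℝ, (∀ (p : ℕ) (t : ℤ), X p (t + p) = X p t) →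
      ∀ᵐ x ∂ν, ∀ᶠ k : ℕ in atTop, ∀ t : ℤ, |(t : ℝ) - lam k * x| ≤ lam k ^ κ → ∀ L : ℕ, (L : ℝ) ≤ lam k ^ κ →
        ∀ I : Fin s → Set ℝ, (∀ i, (I i).OrdConnected) →
        |dif X I L t| ≤ C' * ((L : ℝ) ^ (1 / 2 + δ) * √(1 + Real.log (lam k))) := by
  obtain ⟨κ, C', hκ, hC', H⟩ := near_consecutive C δ₀ hδ₀ s hs δ hδ
  refine ⟨κ, C', hκ, hC', fun ν _ hdec lam hlam hsum X hX => ?_⟩
  obtain ⟨B, hB⟩ : ∃ B : ℕ → Set ℝ, ∀ k, B k = {x | ∃ t : ℤ, |(t : ℝ) - lam k * x| ≤ lam k ^ κ ∧ ∃ L : ℕ, (L : ℝ) ≤ lam k ^ κ ∧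
    ∃ I : Fin s → Set ℝ, (∀ i, (I i).OrdConnected) ∧
        C' * ((L : ℝ) ^ (1 / 2 + δ) * √(1 + Real.log (lam k))) < |dif X I L t|} := ⟨_, fun _ => rfl⟩
  have hb : ∀ k, ν.real (B k) ≤ C' * lam k ^ (-κ) := by
    intro k
    rw [hB]
    exact H ν hdec (lam k) (hlam k) X hX
  have hae : ∀ᵐ x ∂ν, ∀ᶠ k : ℕ in atTop, x ∉ B k := by
    apply ae_eventually_notMem
    have hs2 : Summable (fun k : ℕ => ν.real (B k)) :=
      Summable.of_nonneg_of_le (fun _ => measureReal_nonneg) hb (hsum.mul_left C')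
    have e1 : ∀ k : ℕ, ν (B k) = ENNReal.ofReal (ν.real (B k)) := by
      intro k
      rw [ofReal_measureReal (measure_lt_top _ _).ne]
    simp only [e1]
    rw [← ENNReal.ofReal_tsum_of_nonneg (fun _ => measureReal_nonneg) hs2]
    exact ENNReal.ofReal_ne_top
  filter_upwards [hae] with x hx
  filter_upwards [hx] with k hk t ht L hL I hI
  by_contra hcon
  push Not at hcon
  apply hk
  rw [hB]
  exact ⟨t, ht, L, hL, I, hI, hcon⟩

end Pool.Agent.HP25.FA
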